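import Pool.Agent.Work.MP_d3ab46_al.Hedge.Up

/-!
The Pauli group and two of its normalisers, for a Fermat prime.
-/

namespace Pool.Agent.Work.MP_d3ab46_al

open Subgroup Module Pool.Agent.Work.MP_36bee3_al

theorem pauli_tau {p : ℕ} (hp : p.Prime) (k : Type) [Field k] [Fintype k] [CharP k 2] {m : ℕ}
    (hk : Fintype.card k = 2 ^ m) (hm : 2 ^ m + 1 = p) (hp2 : p ≠ 2) :
    ∃ τ : k, ∀ x : k × k, (fun x : k × k => (x.2 + τ * x.1, x.1))^[p] x = x := by
  have : NeZero (p : k) := ⟨by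
    rw [← hm, ← hk, Nat.cast_succ, FiniteField.cast_card_eq_zero, zero_add]
    exact one_ne_zero⟩
  obtain ⟨ζ, hζ⟩ := HasEnoughRootsOfUnity.exists_primitiveRoot (AlgebraicClosure k) p
  have h0 := hζ.ne_zero hp.ne_zero
  have h1 : ζ ^ 2 ^ m = ζ⁻¹ := eq_inv_of_mul_eq_one_left (by rw [← pow_succ, hm, hζ.pow_eq_one])
  obtain ⟨τ, hτ⟩ : ζ + ζ⁻¹ ∈ (algebraMap k (AlgebraicClosure k)).range := by
    refine Polynomial.Splits.mem_range_of_isRoot
      (by simpa using (FiniteField.isSplittingField_sub k k).splits)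
      (FiniteField.X_pow_card_sub_X_ne_zero k Fintype.one_lt_card) ?_
    simp [hk, add_pow_char_pow, h1, add_comm]
  refine ⟨τ, fun x => ?_⟩
  have h2 : ∀ η : AlgebraicClosure k, η * (ζ + ζ⁻¹) = η ^ 2 + 1 → ∀ (n : ℕ) (y : k × k),
      y = (fun x : k × k => (x.2 + τ * x.1, x.1))^[n] x → algebraMap k _ y.1 * η + algebraMap k _ y.2
        = η ^ n * (algebraMap k _ x.1 * η + algebraMap k _ x.2) := fun η h n => by
    induction n with
    | zero => exact fun y e => by simp [e]
    | succ n ih =>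
      intro y e
      rw [e, Function.iterate_succ_apply', pow_succ', mul_assoc, ← ih _ rfl, map_add, map_mul, hτ]
      generalize (fun x : k × k => (x.2 + τ * x.1, x.1))^[n] x = z
      linear_combination algebraMap k _ z.1 * h +
        algebraMap k (AlgebraicClosure k) z.1 * CharTwo.two_eq_zero (R := AlgebraicClosure k)
  have h3 := h2 ζ (by field_simp) p _ rfl
  have h4 := h2 ζ⁻¹ (by field_simp; ring) p _ rfl
  generalize (fun x : k × k => (x.2 + τ * x.1, x.1))^[p] x = z at h3 h4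
  rw [hζ.pow_eq_one, one_mul] at h3
  rw [hζ.inv.pow_eq_one, one_mul] at h4
  have h5 : ζ - ζ⁻¹ ≠ 0 := fun e => hp2 ((Nat.prime_dvd_prime_iff_eq hp Nat.prime_two).1
    (hζ.dvd_of_pow_eq_one 2 (by linear_combination ζ * e + mul_inv_cancel₀ h0)))
  have h6 : z.1 = x.1 := (algebraMap k (AlgebraicClosure k)).injective
    (mul_right_cancel₀ h5 (by linear_combination h3 - h4))
  rw [h6, add_right_inj] at h3
  exact Prod.ext h6 ((algebraMap k (AlgebraicClosure k)).injective h3)

/-- A commutative extension of the additive group of `k` by itself. -/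
def pauliE {k : Type} (_ : k) : Type := k × k

instance {k : Type} [CommRing k] (τ : k) : CommGroup (pauliE τ) where
  mul x y := (x.1 + y.1, x.2 + y.2 + τ * x.1 * y.1)
  one := (0, 0)
  inv x := (-x.1, -x.2 + τ * x.1 * x.1)
  mul_assoc x y z := Prod.ext (add_assoc _ _ _) (show _ + _ + _ + _ + _ * (_ + _) * _ =
    _ + (_ + _ + _) + _ * _ * (_ + _) by ring)
  one_mul x := Prod.ext (zero_add _) (show 0 + _ + _ * 0 * _ = _ by ring)
  mul_one x := Prod.ext (add_zero _) (show _ + 0 + _ * _ * 0 = _ by ring)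
  inv_mul_cancel x := Prod.ext (neg_add_cancel _) (show _ + _ + _ + _ * -_ * _ = 0 by ring)
  mul_comm x y := Prod.ext (add_comm _ _) (show _ + _ + _ = _ + _ + _ by ring)

theorem pauli_chars (p : ℕ) [hp : Fact p.Prime] (h4 : 4 ∣ p - 1) {k : Type} [Field k] [Finite k]
    [CharP k 2] (τ : k) : ∃ (ψ : AddChar k (ZMod p)) (c : k → (ZMod p)ˣ), ψ ≠ 1 ∧
      ∀ s t, (c s * c t : ZMod p) = c (s + t) * ψ (τ * s * t) := by
  have : Finite (pauliE τ) := inferInstanceAs (Finite (k × k))
  have : NeZero (p - 1) := ⟨Nat.sub_ne_zero_of_lt hp.out.one_lt⟩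
  have hm : ∀ a b c d : k, @HMul.hMul (pauliE τ) (pauliE τ) (pauliE τ) _ (a, b) (c, d) =
    (a + c, b + d + τ * a * c) := fun _ _ _ _ => rfl
  have := HasEnoughRootsOfUnity.of_dvd (ZMod p)
    ((Monoid.exponent_dvd_of_forall_pow_eq_one (G := pauliE τ) (n := 4) fun ⟨a, b⟩ => by
      rw [show 4 = 2 * 2 from rfl, pow_mul, pow_two, pow_two, hm, hm]
      exact Prod.ext (by simp [CharTwo.add_self_eq_zero]; rfl)
        (by simp [CharTwo.add_self_eq_zero]; rfl)).trans h4)
  obtain ⟨χ, hχ⟩ := CommGroup.exists_apply_ne_one_of_hasEnoughRootsOfUnity (pauliE τ) (ZMod p)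
    (a := (0, 1)) fun e => one_ne_zero (congrArg Prod.snd e)
  refine ⟨⟨fun x => χ (0, x), congrArg _ χ.map_one, fun x y => ?_⟩, fun s => χ (s, 0),
    AddChar.ne_one_iff.2 ⟨1, fun e => hχ (Units.ext e)⟩, fun s t => ?_⟩
  · rw [← Units.val_mul, ← map_mul, hm]
    simp
  · change _ = (χ _ * χ _ : ZMod p)
    rw [← Units.val_mul, ← Units.val_mul, ← map_mul, ← map_mul, hm, hm]
    simp

section
variable {p : ℕ} [Fact p.Prime] {k : Type} [Field k]

/-- A weighted translation operator. -/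
def pauliW (c : k → ZMod p) (a : k) : End (ZMod p) (k → ZMod p) where
  toFun f t := c t * f (t + a)
  map_add' _ _ := funext fun _ => mul_add _ _ _
  map_smul' _ _ := funext fun _ => mul_left_comm _ _ _

theorem pauli_apply (c : k → ZMod p) (a : k) (f : k → ZMod p) (t : k) :
    pauliW c a f t = c t * f (t + a) := rfl

/-- The Fourier transform. -/
def pauliH [Fintype k] (ψ : AddChar k (ZMod p)) : End (ZMod p) (k → ZMod p) where
  toFun f t := ∑ s, ψ (s * t) * f s
  map_add' _ _ := funext fun _ => by simp [mul_add, Finset.sum_add_distrib]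
  map_smul' _ _ := funext fun _ => by simp [Finset.mul_sum, mul_left_comm]

theorem pauli_unit {R : Type} [Ring R] [Finite R] [Algebra (ZMod p) R] {A B : R} {t : ZMod p}
    (ht : t ≠ 0) (h : A * B = t • (1 : R)) : ∃ u : Rˣ, u = A :=
  IsUnit.of_mul_eq_one (t⁻¹ • B) (by rw [mul_smul_comm, h, smul_smul, inv_mul_cancel₀ ht, one_smul])

theorem pauli_data [Fintype k] [CharP k 2] {m : ℕ} (hk : Fintype.card k = 2 ^ m)
    (hm : 2 ^ m + 1 = p) (h4 : 4 ∣ p - 1) (hp2 : p ≠ 2) :
    ProjData p (End (ZMod p) (k → ZMod p)) := by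
  classical
  obtain ⟨τ, hτ⟩ := pauli_tau Fact.out k hk hm hp2
  obtain ⟨ψ, c, h1, hc⟩ := pauli_chars p h4 τ
  have hψ := AddChar.IsPrimitive.of_ne_one h1
  have : Finite (End (ZMod p) (k → ZMod p)) := Finite.of_injective _ DFunLike.coe_injective
  have h0 : ∀ a, ψ a ≠ 0 := fun a => (ψ.val_isUnit a).ne_zero
  have h2 : ∀ x y : k × k, pauliW (fun t => ψ (x.2 * t)) x.1 * pauliW (fun t => ψ (y.2 * t)) y.1 =
      ψ (y.2 * x.1) • pauliW (fun t => ψ ((x + y).2 * t)) (x + y).1 := fun x y => by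
    refine LinearMap.ext fun f => funext fun t => ?_
    simp only [End.mul_apply, LinearMap.smul_apply, Pi.smul_apply, pauli_apply, smul_eq_mul,
      Prod.fst_add, Prod.snd_add, add_mul, mul_add, AddChar.map_add_eq_mul, add_assoc]
    ring
  choose ρ hρ using fun x : k × k => pauli_unit (h0 _) ((h2 x (-x)).trans (congrArg _
    (LinearMap.ext fun f => funext fun t => by simp [pauli_apply])))
  obtain ⟨H, hH⟩ := pauli_unit (A := pauliH ψ) (B := pauliH ψ) (t := (-1 : ZMod p)) (by simp) (by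
    refine LinearMap.ext fun f => funext fun t => ?_
    change ∑ s, ψ (s * t) * ∑ u, ψ (u * s) * f u = -1 * f t
    simp only [Finset.mul_sum]
    rw [Finset.sum_comm]
    have h3 : ∀ u, ∑ s, ψ (s * t) * (ψ (u * s) * f u) = if u = t then -1 * f u else 0 := fun u => by
      simp only [← mul_assoc, ← Finset.sum_mul, ← AddChar.map_add_eq_mul, mul_comm u, ← mul_add]
      rw [AddChar.sum_mulShift _ hψ, hk, if_congr (CharTwo.add_eq_zero.trans eq_comm) rfl rfl]
      split_ifs
      · rw [eq_neg_of_add_eq_zero_left ((Nat.cast_succ _).symm.trans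
          ((congrArg Nat.cast hm).trans (ZMod.natCast_self p)))]
      · simp
    simp [h3])
  obtain ⟨N, hN⟩ := pauli_unit (A := pauliW (fun t => (c t : ZMod p)) 0)
    (B := pauliW (fun t => (c t : ZMod p)⁻¹) 0) (one_ne_zero' (ZMod p))
    (LinearMap.ext fun f => funext fun t => show c t * (_⁻¹ * f (t + 0 + 0)) = 1 * f t by
      rw [add_zero, add_zero, mul_inv_cancel_left₀ (c t).ne_zero, one_mul])
  have hn : Function.Involutive fun x : k × k => (x.1, x.2 + τ * x.1) := fun x => by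
    simp [add_assoc, CharTwo.add_self_eq_zero]
  refine ⟨k × k, inferInstance, ρ, Equiv.prodComm k k, hn.toPerm, H, N, fun T hT => ?_,
    fun x y t h => ?_, fun x y => ⟨ψ (x.2 * y.1 - y.2 * x.1), ?_⟩, rfl, Equiv.ext hn,
    Equiv.ext fun x => (congrFun (Equiv.Perm.coe_pow _ _) x).trans (hτ x),
    fun e => zero_ne_one (congrArg (fun g : Equiv.Perm (k × k) => (g (0, 1)).2) e),
    fun x => ⟨ψ (x.1 * x.2), ?_⟩, fun x => ⟨((c x.1)⁻¹ : (ZMod p)ˣ), ?_⟩⟩
  · have h3 : ∀ a b (f : k → ZMod p) t, T (fun t => ψ (b * t) * f (t + a)) t =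
        ψ (b * t) * T f (t + a) := fun a b f t => by
      have := LinearMap.congr_fun (hT (a, b)) f
      rw [hρ] at this
      exact congrFun this t
    have h4 : ∀ t, t ≠ 0 → T (Pi.single 0 1) t = 0 := fun t ht => by
      obtain ⟨b, hb⟩ := AddChar.ne_one_iff.1 (hψ ht)
      have := h3 0 b (Pi.single 0 1) t
      rw [show (fun t => ψ (b * t) * (Pi.single 0 1 : k → ZMod p) (t + 0)) = Pi.single 0 1 from
        funext fun t => by by_cases e : t = 0 <;> simp [e], add_zero, mul_comm b] at this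
      exact eq_zero_of_mul_eq_self_left hb this.symm
    refine ⟨T (Pi.single 0 1) 0, (Pi.basisFun _ _).ext fun a => funext fun t => ?_⟩
    have := h3 (-a) 0 (Pi.single 0 1) t
    rw [show (fun t => ψ (0 * t) * (Pi.single 0 1 : k → ZMod p) (t + -a)) = Pi.single a 1 from
      funext fun t => by simp [Pi.single_apply, add_neg_eq_zero]] at this
    by_cases e : t = a
    · simpa [e] using this
    · simp [this, e, h4 _ (add_neg_eq_zero.not.2 e)]
  · rw [hρ, hρ] at h
    have h3 : ∀ (f : k → ZMod p) s, ψ (x.2 * s) * f (s + x.1) = t * (ψ (y.2 * s) * f (s + y.1)) :=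
      fun f => congrFun (LinearMap.congr_fun h f)
    obtain rfl : 1 = t := by simpa using h3 1 0
    refine Prod.ext (by_contra fun e => ?_) (AddChar.to_mulShift_inj_of_isPrimitive hψ
      (AddChar.ext _ _ fun s => by simpa using h3 1 s))
    simpa [e] using h3 (Pi.single y.1 1) 0
  · rw [hρ, hρ, h2, h2, smul_smul, ← AddChar.map_add_eq_mul, sub_add_cancel, add_comm]
  · rw [hρ, hρ, hH]
    refine LinearMap.ext fun f => funext fun t => ?_
    change ∑ s, ψ (s * t) * (ψ (x.2 * s) * f (s + x.1)) =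
      ψ (x.1 * x.2) * (ψ (x.1 * t) * ∑ s, ψ (s * (t + x.2)) * f s)
    rw [Finset.mul_sum, Finset.mul_sum]
    refine Fintype.sum_equiv (Equiv.addRight x.1) _ _ fun s => ?_
    simp only [← mul_assoc, ← AddChar.map_add_eq_mul, Equiv.coe_addRight]
    congr 2
    linear_combination (-(x.1 * x.2) - x.1 * t) * CharTwo.two_eq_zero (R := k)
  · rw [hρ, hρ, hN]
    refine LinearMap.ext fun f => funext fun t => ?_
    change c t * (ψ (x.2 * (t + 0)) * f (t + 0 + x.1)) = ((c x.1)⁻¹ : (ZMod p)ˣ) *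
      (ψ ((x.2 + τ * x.1) * t) * (c (t + x.1) * f (t + x.1 + 0)))
    rw [Units.eq_inv_mul_iff_mul_eq, ← mul_assoc, hc, add_mul, AddChar.map_add_eq_mul, add_comm x.1,
      add_zero, add_zero]
    ring

end

theorem pauli_three : ProjData 3 (Matrix (Fin 2) (Fin 2) (ZMod 3)) := by
  refine ⟨Fin 3, inferInstance, ![⟨!![0, -1; 1, 0], !![0, 1; -1, 0], by decide, by decide⟩,
    ⟨!![1, 1; 1, -1], !![-1, -1; -1, 1], by decide, by decide⟩,
    ⟨!![-1, 1; 1, 1], !![1, -1; -1, -1], by decide, by decide⟩], Equiv.swap 0 1, Equiv.swap 1 2,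
    ⟨!![1, 0; -1, -1], !![1, 0; -1, -1], by decide, by decide⟩,
    ⟨!![0, -1; -1, 0], !![0, -1; -1, 0], by decide, by decide⟩, ?_, by decide, by decide,
    by decide, by decide, by decide, by decide, by decide, by decide⟩
  decide +kernel

theorem exists_fermat_group (p m : ℕ) [Fact p.Prime] (hm : 1 ≤ m) (hp : 2 ^ m + 1 = p) :
    ∃ (X V : Type) (_ : Group X) (_ : Finite X) (_ : Group.IsSolvable X) (_ : AddCommGroup V)
      (_ : Module (ZMod p) V) (_ : FiniteDimensional (ZMod p) V) (ρ : X →* End (ZMod p) V),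
      Function.Injective ρ ∧ finrank (ZMod p) V = p - 1 ∧
        rel (piN {p}) (rel (piN {p}ᶜ) (rel (piN {p}) (⊥ : Subgroup X))) ≠ ⊤ := by
  have hp2 : p ≠ 2 := by
    have := Nat.pow_le_pow_right two_pos hm
    omega
  rcases hm.eq_or_lt with rfl | h
  · subst hp
    obtain ⟨X, _, _, _, f, hf, h⟩ := proj_group 3 hp2 pauli_three
    exact ⟨X, Fin 2 → ZMod 3, _, ‹_›, ‹_›, _, inferInstance, inferInstance,
      (MonoidHomClass.toMonoidHom (Matrix.toLinAlgEquiv' (R := ZMod 3) (n := Fin 2))).comp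
        ((Units.coeHom _).comp f),
      Matrix.toLinAlgEquiv'.injective.comp (Units.val_injective.comp hf), by simp, h⟩
  · have := Fintype.ofFinite (GaloisField 2 m)
    have hk : Fintype.card (GaloisField 2 m) = 2 ^ m :=
      Fintype.card_eq_nat_card.trans (GaloisField.card 2 m (by omega))
    have : Finite (End (ZMod p) (GaloisField 2 m → ZMod p)) :=
      Finite.of_injective _ DFunLike.coe_injective
    obtain ⟨X, _, _, _, f, hf, h⟩ := proj_group p hp2 (pauli_data hk hp
      (by rw [← hp]; exact pow_dvd_pow 2 h) hp2)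
    exact ⟨X, GaloisField 2 m → ZMod p, _, ‹_›, ‹_›, _, inferInstance, inferInstance,
      (Units.coeHom _).comp f, Units.val_injective.comp hf, by simp [hk, ← hp], h⟩

end Pool.Agent.Work.MP_d3ab46_al
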