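import Pool.Agent.Results.MP_d3ab46_al.ExactAndLimit

/-!
The earlier statements as projections or instances of the joint statement.
-/

namespace Pool.Agent.Work.MP_d3ab46_al

open Filter Topology

theorem exactValue (p : ℕ) [Fact p.Prime] (F : Type) [Field F] [Finite F] [CharP F p] (n : ℕ)
    (hn : 2 ≤ n) :
    maxLength p F n = 1 + Nat.log (max p 3)
      (if Nat.card F = 2 then 3 * (n - 1) / 2
        else if p = 2 then 9 * (n - 1) / 4
        else if ∃ m < p, 2 ^ m + 1 = p then p * (n - 1) / (p - 1)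
        else n - 1) :=
  (Pool.Agent.Results.MP_d3ab46_al.ExactAndLimit.result p F).1 n hn

theorem trueLimit (p : ℕ) [Fact p.Prime] (F : Type) [Field F] [Finite F] [CharP F p] :
    Tendsto (fun n : ℕ => (maxLength p F n : ℝ) / Real.logb 2 n) atTop
        (𝓝 (Real.logb 2 (max p 3 : ℕ))⁻¹) ∧
      ¬ Tendsto (fun n : ℕ => (maxLength p F n : ℝ) / Real.logb 2 n) atTop (𝓝 1) :=
  (Pool.Agent.Results.MP_d3ab46_al.ExactAndLimit.result p F).2

theorem exactCharTwo (F : Type) [Field F] [Finite F] [CharP F 2] (n : ℕ) (hn : 2 ≤ n) :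
    maxLength 2 F n =
      1 + Nat.log 3 (if Nat.card F = 2 then 3 * (n - 1) / 2 else 9 * (n - 1) / 4) := by
  simpa using exactValue 2 F n hn

end Pool.Agent.Work.MP_d3ab46_al
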